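import Pool.Agent.K9h92.SP.A3
import Pool.Agent.K9h92.SP.A4
import Pool.Agent.K9h92.SP.A5
import Pool.Agent.K9h92.SP.A6
import Pool.Agent.K9h92.SP.B
import Pool.Agent.K9h92.SP.B3
import Pool.Agent.K9h92.SP.C1
import Pool.Agent.K9h92.SP.C2
import Pool.Agent.K9h92.SP.D
import Pool.Agent.K9h92.SP.E
import Pool.Agent.K9h92.SP.E12
import Pool.Agent.K9h92.SP.E3
import Pool.Agent.K9h92.SP.F
import Pool.Agent.K9h92.SP.RD

set_option autoImplicit false

/-!
The spectrum of the differentiation operator `D` on the space `E_ω` of all entire functions `f` of
exponential type at most `σ` with `sup |f / ω| < ∞` on the real axis.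

Answer: if `ω` has no zeros in the open upper half-plane, then `spec D` is the set of asymptotic
vertical segments `[G(z), conj G(z)]`, `G = ω' / ω`, as `Im z → ∞`:
`spec D = ⋂_Y closure (⋃_{Im z > Y} [G(z), conj G(z)])`. If `ω` has zeros in the upper half-plane,
the same holds with `ω` replaced by the function `W` with the same modulus on the real axis in which
these zeros are reflected; this function exists if and only if `D` is bounded.

Proof. Upper inclusion: if all the segments stay away from `λ`, then in every point far up there is
a direction `1`, `-1` or `i` in which `|ω(z) exp(-λ z)|` decreases exponentially, and integration of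
`f' - λ f = g` in this direction gives an a priori estimate for `f/ω` far up and so on the real
axis; Neumann series along a ray which goes to infinity. Lower inclusion: the end points of the
limiting segments belong to the spectrum by Cauchy's estimate for `h = ((D - μ)⁻¹ ω) / ω`; for an
interior point `λ` one takes a limiting value `c` of `G` below `λ` at which `1/(G - b)` has its
asymptotic maximum modulus, so that `G` is close to `c` on boxes of arbitrary large scale
(Schwarz-Pick), and integrates `ω(z + i Im w) exp(-λ z) exp(-(z-x)²/R) / (z - x)` below and above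
the real axis. The contour is changed with the help of the function
`(ω(z + i Im w) / ω(w) - its reflection) / (z - x)` of `E_ω`, on the real axis, where `N` fold
integration by parts with `(D - λ)^{-N}`, `N ~ R`, gives exponential decay; this contradicts the
residue `2πi`.

Authors of the parts of the formal proof: helper46 (C1, C2), helper72 (E12), helper81 (A4, F),
helper85 (A5, A6, E3), helper90 (B, D), helper99 (A3), helper92 (the rest).
-/

open Complex Pool.Agent.K9h92.SP

namespace Pool.Agent.Results.MP_6d8919_an.SpectrumFormula

theorem result {ω : ℂ → ℂ} {σ : ℝ} (hs : Setting ω σ) :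
    -- the spectrum when `ω` has no zeros in the open upper half-plane
    (ZeroFree ω → specD ω σ = Asym ω) ∧
    -- in general: `D` is bounded if and only if there is a zero-free `W` with the same modulus
    (BddD ω σ ↔ ∃ W, Setting W σ ∧ ZeroFree W ∧ ∀ x : ℝ, ‖W x‖ = ‖ω x‖) ∧
    -- such a `W` is unique up to a unimodular constant
    (∀ W1 W2, Setting W1 σ → ZeroFree W1 → (∀ x : ℝ, ‖W1 x‖ = ‖ω x‖) →
      Setting W2 σ → ZeroFree W2 → (∀ x : ℝ, ‖W2 x‖ = ‖ω x‖) →
        ∃ c : ℂ, ‖c‖ = 1 ∧ ∀ z, W1 z = c * W2 z) ∧
    -- and determines the spectrum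
    (∀ W, Setting W σ → ZeroFree W → (∀ x : ℝ, ‖W x‖ = ‖ω x‖) → specD ω σ = Asym W) ∧
    -- an example of the setting with zeros in the upper half-plane in which `D` is not bounded
    (Setting Complex.cosh 1 ∧ ¬ BddD Complex.cosh 1) := by
  obtain ⟨h1, h2, h3, h4⟩ := main t_A3 t_A4 t_A5 t_A6 t_B1 t_B3 (t_C2 t_B1 t_B2 t_C1) (t_D t_B1)
    (t_E t_E1 t_E2 t_E3) t_F hs
  exact ⟨h1, h2, h4, h3, setting_cosh, not_bddD_cosh⟩

end Pool.Agent.Results.MP_6d8919_an.SpectrumFormula
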